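import Mathlib

/-!
Increasing enumeration of a union of blocks, and Cesaro averages along it.
-/

namespace Pool.Agent.P.MP_2957ea_an.Inc

open Finset Filter Topology Asymptotics

theorem enum (S : ℕ → Finset ℕ) (c : ℕ → ℕ) (hc : Monotone c)
    (hS : ∀ b, ∀ n ∈ S b, c b ≤ n ∧ n < c (b + 1)) (hne : ∀ b, (S b).Nonempty) :
    ∃ a : ℕ → ℕ, StrictMono a ∧ ∀ (v : ℕ → ℂ) (b : ℕ),
      ∑ n ∈ range (∑ j ∈ range b, (S j).card), v (a n) = ∑ j ∈ range b, ∑ m ∈ S j, v m := by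
  classical
  let A : ℕ → Prop := fun m => ∃ b, m ∈ S b
  choose x hx using hne
  have hlt : ∀ {i j}, i < j → ∀ m ∈ S i, ∀ n ∈ S j, m < n := fun h m hm n hn =>
    (hS _ m hm).2.trans_le ((hc h).trans (hS _ n hn).1)
  have hA : {m | A m}.Infinite := Set.infinite_of_injective_forall_mem
    (StrictMono.injective fun i j h => hlt h _ (hx i) _ (hx j)) fun b => ⟨b, hx b⟩
  have h1 : ∀ (v : ℕ → ℂ) (y : ℕ), ∑ n ∈ range (Nat.count A y), v (Nat.nth A n) =
      ∑ m ∈ (range y).filter A, v m := fun v y => by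
    induction y with
    | zero => simp
    | succ y ih =>
      rw [Nat.count_succ, sum_filter, sum_range_succ, ← sum_filter, ← ih]
      split_ifs with h
      · rw [sum_range_succ, Nat.nth_count h]
      · simp
  have h2 : ∀ b, (range (c b)).filter A = (range b).biUnion S := fun b => by
    ext m
    simp only [mem_filter, mem_range, mem_biUnion]
    refine ⟨fun ⟨h, j, hj⟩ => ⟨j, lt_of_not_ge fun h' => ?_, hj⟩,
      fun ⟨j, h, hj⟩ => ⟨(hS j m hj).2.trans_le (hc h), j, hj⟩⟩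
    exact absurd ((hc h').trans (hS j m hj).1) h.not_ge
  have h3 : ∀ b, ((range b : Finset ℕ) : Set ℕ).PairwiseDisjoint S := fun b i _ j _ h =>
    disjoint_left.2 fun m hi hj => (lt_or_gt_of_ne h).elim (fun h => (hlt h m hi m hj).false)
      fun h => (hlt h m hj m hi).false
  refine ⟨Nat.nth A, Nat.nth_strictMono hA, fun v b => ?_⟩
  rw [← card_biUnion (h3 b), ← sum_biUnion (h3 b), ← h2, ← Nat.count_eq_card_filter_range, h1]

variable {K : ℕ}

/-- The number of elements in the first `b` blocks. -/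
def pp (K b : ℕ) : ℕ := ∑ j ∈ range b, (K + j) ^ 7

theorem pp_mono (hK : 0 < K) : StrictMono (pp K) := strictMono_nat_of_lt_succ fun b => by
  rw [pp, pp, sum_range_succ]
  exact Nat.lt_add_of_pos_right (by positivity)

theorem pp_ge (hK : 0 < K) (b : ℕ) : (K + b) ^ 8 ≤ K ^ 8 + 255 * pp K b := by
  induction b with
  | zero => simp [pp]
  | succ b ih =>
    obtain ⟨x, hx⟩ : ∃ x, K + b = x + 1 := ⟨K + b - 1, by omega⟩
    rw [pp, sum_range_succ, ← pp, ← add_assoc]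
    rw [hx] at ih ⊢
    have : (x + 1 + 1) ^ 8 ≤ (x + 1) ^ 8 + 255 * (x + 1) ^ 7 := by
      ring_nf
      omega
    omega

theorem block_small (hK : 0 < K) :
    (fun b : ℕ => ((K + b : ℕ) : ℝ) ^ 7) =o[atTop] fun b => (pp K b : ℝ) := by
  refine IsLittleO.of_bound fun ε hε => ?_
  filter_upwards [eventually_gt_atTop 0, (tendsto_natCast_atTop_atTop (R := ℝ)).eventually_ge_atTop
    ((K ^ 8 + 255) / ε)] with b h0 h1
  have h2 : (1 : ℝ) ≤ pp K b := by exact_mod_cast Nat.one_le_of_lt (pp_mono hK h0)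
  have h3 : ((K + b : ℕ) : ℝ) ^ 8 ≤ K ^ 8 + 255 * pp K b := by exact_mod_cast pp_ge hK b
  have h4 : (0 : ℝ) < b := by exact_mod_cast h0
  have h5 : (b : ℝ) * ((K + b : ℕ) : ℝ) ^ 7 ≤ ((K + b : ℕ) : ℝ) ^ 8 := by
    rw [pow_succ' _ 7]
    gcongr
    omega
  rw [div_le_iff₀ hε] at h1
  rw [Real.norm_of_nonneg (by positivity), Real.norm_of_nonneg (by positivity)]
  refine le_of_mul_le_mul_left ?_ h4
  nlinarith [mul_le_mul_of_nonneg_left h2 (show (0 : ℝ) ≤ K ^ 8 by positivity),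
    mul_le_mul_of_nonneg_right h1 (zero_le_one.trans h2)]

theorem cesaro (hK : 0 < K) {u B : ℕ → ℂ} {C : ℝ} {L : ℂ} (hu : ∀ n, ‖u n‖ ≤ C)
    (hB : ∀ b, ∑ n ∈ range (pp K b), u n = ∑ j ∈ range b, B j)
    (h : Tendsto (fun j : ℕ => (((K + j : ℕ) : ℂ) ^ 7)⁻¹ * B j) atTop (𝓝 L)) :
    Tendsto (fun N : ℕ => (N : ℂ)⁻¹ * ∑ n ∈ range N, u n) atTop (𝓝 L) := by
  have hm := pp_mono hK
  have h1 : (fun j : ℕ => B j - ((K + j : ℕ) : ℂ) ^ 7 * L) =o[atTop]
      fun j => ((K + j : ℕ) : ℝ) ^ 7 := by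
    refine IsLittleO.of_bound fun ε hε => ?_
    filter_upwards [Metric.tendsto_nhds.1 h ε hε] with j hj
    have h0 : ((K + j : ℕ) : ℂ) ^ 7 ≠ 0 := pow_ne_zero _ (Nat.cast_ne_zero.2 (by omega))
    rw [← mul_inv_cancel_left₀ h0 (B j), ← mul_sub, norm_mul, mul_comm, ← dist_eq_norm]
    simp only [norm_pow, Complex.norm_natCast, Real.norm_natCast]
    gcongr
  have h2 := h1.sum_range (fun j => by positivity) (by
    simpa [pp, Function.comp_def] using tendsto_natCast_atTop_atTop (R := ℝ).comp hm.tendsto_atTop)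
  have h3 : ∀ N, ∃ b, pp K b ≤ N ∧ N < pp K (b + 1) := fun N => by
    induction N with
    | zero => exact ⟨0, by simp [pp], (Nat.zero_le _).trans_lt (hm (Nat.lt_succ_self 0))⟩
    | succ N ih =>
      obtain ⟨b, h1, h2⟩ := ih
      rcases Nat.lt_or_ge (N + 1) (pp K (b + 1)) with h | h
      · exact ⟨b, by omega, h⟩
      · exact ⟨b + 1, h, by have := hm (Nat.lt_add_one (b + 1)); omega⟩
  choose β h3 h4 using h3
  have h5 : Tendsto β atTop atTop := tendsto_atTop_atTop.2 fun J => ⟨pp K J, fun N hN =>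
    Nat.lt_succ_iff.1 (hm.lt_iff_lt.1 (hN.trans_lt (h4 N)))⟩
  have h6 : (fun N => (pp K (β N) : ℝ)) =O[atTop] fun N : ℕ => (N : ℝ) :=
    isBigO_of_le _ fun N => by simpa using h3 N
  have h7 : (fun N => ∑ n ∈ Ico (pp K (β N)) N, (u n - L)) =O[atTop]
      fun N => ((K + β N : ℕ) : ℝ) ^ 7 := by
    refine IsBigO.of_bound (C + ‖L‖) (Eventually.of_forall fun N => ?_)
    refine (norm_sum_le _ _).trans ((sum_le_card_nsmul _ _ (C + ‖L‖) fun n _ =>
      (norm_sub_le _ _).trans (by gcongr; exact hu n)).trans ?_)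
    have a1 : N - pp K (β N) ≤ (K + β N) ^ 7 := by
      have := h4 N
      rw [pp, sum_range_succ, ← pp] at this
      omega
    have a2 : 0 ≤ C := (norm_nonneg _).trans (hu 0)
    rw [nsmul_eq_mul, Nat.card_Ico, mul_comm, Real.norm_of_nonneg (by positivity)]
    gcongr
    exact_mod_cast a1
  have h8 : (fun N : ℕ => ∑ n ∈ range N, (u n - L)) =o[atTop] fun N : ℕ => (N : ℝ) := by
    refine (((h2.comp_tendsto h5).trans_isBigO (by simpa [pp, Function.comp_def] using h6)).add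
      (h7.trans_isLittleO (((block_small hK).comp_tendsto h5).trans_isBigO h6))).congr_left
        fun N => ?_
    rw [← sum_range_add_sum_Ico _ (h3 N), sum_sub_distrib (s := range _), hB]
    simp [pp, sum_mul]
  rw [← tendsto_sub_nhds_zero_iff]
  refine (h8.trans_isBigO (k := fun N : ℕ => (N : ℂ))
    (isBigO_of_le _ fun N => by simp)).tendsto_div_nhds_zero.congr' ?_
  filter_upwards [eventually_gt_atTop 0] with N hN
  have : (N : ℂ) ≠ 0 := Nat.cast_ne_zero.2 hN.ne'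
  simp only [sum_sub_distrib, sum_const, card_range, nsmul_eq_mul]
  field_simp

theorem window (hK : 0 < K) {u B : ℕ → ℂ} {L : ℂ}
    (hB : ∀ b, ∑ n ∈ range (pp K b), u n = ∑ j ∈ range b, B j)
    (h : Tendsto (fun N : ℕ => (N : ℂ)⁻¹ * ∑ n ∈ range N, u n) atTop (𝓝 L)) {ε : ℝ} (hε : 0 < ε) :
    ∀ᶠ b in atTop, ∀ (z : ℂ) (η : ℝ), (∀ j < b,
      ‖(((K + (b + j) : ℕ) : ℂ) ^ 7)⁻¹ * B (b + j) - z‖ ≤ η) → ‖z - L‖ ≤ η + 3 * ε := by
  have hm := pp_mono hK
  obtain ⟨N₀, hN⟩ := eventually_atTop.1 ((Metric.tendsto_nhds.1 h ε hε).and (eventually_gt_atTop 0))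
  have h1 : ∀ b, N₀ ≤ b → ‖∑ j ∈ range b, B j - pp K b * L‖ ≤ pp K b * ε := fun b hb => by
    obtain ⟨a1, a2⟩ := hN _ (hb.trans (hm.id_le b))
    have h0 : (pp K b : ℂ) ≠ 0 := Nat.cast_ne_zero.2 a2.ne'
    rw [← hB, ← mul_inv_cancel_left₀ h0 (∑ n ∈ _, u n), ← mul_sub, norm_mul, ← dist_eq_norm,
      Complex.norm_natCast]
    gcongr
  filter_upwards [eventually_ge_atTop N₀, eventually_gt_atTop 0] with b hb hb0 z η hz
  set D : ℕ := ∑ j ∈ range b, (K + (b + j)) ^ 7 with hD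
  have h2 : pp K (b + b) = pp K b + D := sum_range_add _ _ _
  have h3 : (pp K b : ℝ) ≤ D := by
    exact_mod_cast sum_le_sum fun j _ => Nat.pow_le_pow_left (by omega) 7
  have h4 : (0 : ℝ) < pp K b := by exact_mod_cast (Nat.zero_le _).trans_lt (hm hb0)
  have h5 : ‖∑ j ∈ range b, B (b + j) - D * z‖ ≤ D * η := by
    rw [hD, Nat.cast_sum, Nat.cast_sum, sum_mul, sum_mul, ← sum_sub_distrib]
    refine norm_sum_le_of_le _ fun j hj => ?_
    have h0 : ((K + (b + j) : ℕ) : ℂ) ^ 7 ≠ 0 := pow_ne_zero _ (Nat.cast_ne_zero.2 (by omega))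
    rw [← mul_inv_cancel_left₀ h0 (B _), Nat.cast_pow, Nat.cast_pow, ← mul_sub, norm_mul, norm_pow,
      Complex.norm_natCast]
    gcongr
    exact hz j (mem_range.1 hj)
  have a1 := h1 b hb
  have a2 := h1 (b + b) (by omega)
  rw [h2, sum_range_add] at a2
  push_cast at a2
  have h6 : (D : ℂ) * (z - L) = (∑ j ∈ range b, B j + ∑ j ∈ range b, B (b + j) - (pp K b + D) * L) -
      (∑ j ∈ range b, B j - pp K b * L) - (∑ j ∈ range b, B (b + j) - D * z) := by ring
  have h7 := (congrArg norm h6).trans_le ((norm_sub_le _ _).trans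
    (add_le_add ((norm_sub_le _ _).trans (add_le_add a2 a1)) h5))
  rw [norm_mul, Complex.norm_natCast] at h7
  exact le_of_mul_le_mul_left (by nlinarith) (h4.trans_le h3)

end Pool.Agent.P.MP_2957ea_an.Inc
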