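import Pool.Agent.P.MP_2957ea_an.Inc.Level
import Pool.Agent.P.MP_2957ea_an.Inc.Enum
import Pool.Agent.P.MP_2957ea_an.NC.Glue
import Pool.Agent.P.MP_2957ea_an.NC.Bad
import Pool.Agent.P.MP_2957ea_an.NC.Drift

/-!
The strictly increasing sequence.
-/

namespace Pool.Agent.P.MP_2957ea_an.Inc

open Finset Filter Topology MeasureTheory Pool.Agent.P.MP_2957ea_an Pool.Agent.P.MP_2957ea_an.NC
open scoped BigOperators

universe u

/-- The averages of `ψ` along `a` converge. -/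
def Cv (a : ℕ → ℤ) (ψ : ℤ → ℂ) : Prop :=
  ∃ L : ℂ, Tendsto (fun N : ℕ => (N : ℂ)⁻¹ * ∑ n ∈ Icc 1 N, ψ (a n)) atTop (𝓝 L)

theorem norm_avg_le {ι : Type*} (s : Finset ι) (f g : ι → ℂ) {ε : ℝ} (hε : 0 ≤ ε)
    (h : ∀ i, ‖f i - g i‖ ≤ ε) :
    ‖(s.card : ℂ)⁻¹ * ∑ i ∈ s, f i - (s.card : ℂ)⁻¹ * ∑ i ∈ s, g i‖ ≤ ε := by
  rw [← mul_sub, ← sum_sub_distrib, norm_mul, norm_inv, Complex.norm_natCast]
  refine inv_mul_le_of_le_mul₀ (by positivity) hε ((norm_sum_le _ _).trans ?_)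
  exact (sum_le_card_nsmul _ _ _ fun i _ => h i).trans_eq (nsmul_eq_mul _ _)

theorem closed_cv (a : ℕ → ℤ) : Closed (Cv a) := by
  refine ⟨⟨0, by simp⟩, ?_, ?_, fun ψ h => ?_⟩
  · rintro ψ φ ⟨L, hL⟩ ⟨L', hL'⟩
    exact ⟨_, by simpa only [sum_add_distrib, mul_add] using hL.add hL'⟩
  · rintro c ψ ⟨L, hL⟩
    exact ⟨_, by simpa only [← mul_sum, mul_left_comm _ c] using hL.const_mul c⟩
  · refine cauchySeq_tendsto_of_complete (Metric.cauchySeq_iff.2 fun ε hε => ?_)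
    obtain ⟨φ, ⟨L, hL⟩, h1⟩ := h (ε / 3) (by positivity)
    obtain ⟨N, hN⟩ := Metric.cauchySeq_iff.1 hL.cauchySeq (ε / 3) (by positivity)
    have h2 := fun m : ℕ => norm_avg_le (Icc 1 m) (fun n => ψ (a n)) (fun n => φ (a n))
      (by positivity) fun n => h1 _
    simp only [Nat.card_Icc, Nat.add_sub_cancel, ← dist_eq_norm] at h2
    refine ⟨N, fun m hm n hn => (dist_triangle4_right _ _ _ _).trans_lt
      ((add_lt_add_of_le_of_lt (add_le_add (h2 m) (h2 n)) (hN m hm n hn)).trans_eq ?_)⟩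
    ring

theorem closed_mul' {P : (ℤ → ℂ) → Prop} (hP : Closed P) {φ : ℤ → ℂ} {B : ℝ} (hB0 : 0 < B)
    (hB : ∀ n, ‖φ n‖ ≤ B) : Closed fun ψ => P fun n => ψ n * φ n := by
  refine ⟨by simpa using hP.1, fun ψ ψ' h h' => ?_, fun c ψ h => ?_, fun ψ h => ?_⟩
  · simpa only [add_mul] using hP.2.1 _ _ h h'
  · simpa only [mul_assoc] using hP.2.2.1 c _ h
  · refine hP.2.2.2 _ fun ε hε => ?_
    obtain ⟨ψ', h1, h2⟩ := h (ε / B) (by positivity)
    refine ⟨_, h1, fun n => ?_⟩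
    rw [← sub_mul, norm_mul]
    calc ‖ψ n - ψ' n‖ * ‖φ n‖ ≤ ε / B * B := mul_le_mul (h2 n) (hB n) (norm_nonneg _) (by positivity)
      _ = ε := by field_simp

theorem closed_diff (S : ℕ → Finset ℕ) (k : ℕ → ℕ) : Closed fun ψ => Tendsto (fun j =>
    ((S j).card : ℂ)⁻¹ * ∑ n ∈ S j, ψ n - EA (rl (k j)) ψ (pos (k j))) atTop (𝓝 0) := by
  refine ⟨by simp [EA], fun ψ φ h h' => ?_, fun c ψ h => ?_, fun ψ h => ?_⟩
  · simpa only [add_zero, EA_add, sum_add_distrib, mul_add, add_sub_add_comm] using h.add h'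
  · simpa only [mul_zero, EA_mul, ← mul_sum, mul_left_comm _ c, mul_sub] using h.const_mul c
  · refine Metric.tendsto_nhds.2 fun ε hε => ?_
    obtain ⟨φ, h1, h2⟩ := h (ε / 3) (by positivity)
    filter_upwards [Metric.tendsto_nhds.1 h1 (ε / 3) (by positivity)] with j hj
    have h3 := norm_avg_le (S j) (fun n => ψ n) (fun n => φ n) (by positivity) fun n => h2 _
    have h4 := norm_EA_sub_le (rl (k j)) ψ φ (pos (k j)) fun s s' => h2 _
    rw [dist_zero_right] at hj ⊢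
    rw [← dist_eq_norm] at hj h3 h4 ⊢
    rw [dist_comm] at h4
    linarith [dist_triangle4 (((S j).card : ℂ)⁻¹ * ∑ n ∈ S j, ψ n)
      (((S j).card : ℂ)⁻¹ * ∑ n ∈ S j, φ n) (EA (rl (k j)) φ (pos (k j)))
      (EA (rl (k j)) ψ (pos (k j)))]

open BadA in
theorem bad' (hs : S_sys) (he : S_eval) : ∃ C : ℤ → ℂ, (∀ n, ‖C n‖ ≤ 1) ∧
    (∀ K, ‖EA (rl K) C (pos K) - ∏ j ∈ range K, kap j‖ ≤ 1 / 20) ∧
      ∀ a : ℕ → ℤ, GoodForCommuting.{0} 2 (fun _ => a) → Cv a C := by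
  obtain ⟨X, _, μ, _, T, hT, hT', f, hf, hf', H⟩ := hs
  have hz := meas_zpow hT.measurable hT'.measurable
  refine ⟨fun d => ∫ x, (starRingEnd ℂ) (f x) ^ 2 * (f ((T ^ d) x) * f ((T ^ (-d)) x)) ∂μ,
    fun d => (norm_integral_le_of_norm_le_const (C := 1)
      (Eventually.of_forall fun x => by simp [hf'])).trans (by simp), fun K => ?_, fun a hG => ?_⟩
  · rw [← avg, EA, ← expect_sub_distrib]
    refine norm_expect_le_of_le fun s => ?_
    rw [← expect_sub_distrib]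
    refine norm_expect_le_of_le fun s' => ?_
    obtain ⟨r, r1, r2, r3⟩ := he K s s'
    obtain ⟨J, j1, j2⟩ := ((H _ r _ r1 r2 (1 / 100) (by norm_num)).and
      (eventually_ge_atTop K)).exists
    have a1 := (norm_ee_sub_ee_le _ _).trans
      (mul_le_mul_of_nonneg_left (r3 J j2) Real.two_pi_pos.le)
    refine (norm_sub_le_norm_sub_add_norm_sub _ _ _).trans ((add_le_add j1 a1).trans ?_)
    linarith [Real.pi_le_four]
  · obtain ⟨g, hg, h⟩ := hG X μ ![T, T⁻¹] (fun i => by fin_cases i; exacts [hT, hT'])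
      (fun i => by fin_cases i; exacts [hT', hT])
      (fun i j => by fin_cases i <;> fin_cases j <;> simp)
      (fun _ => f) fun _ => memLp_top_of_bound hf.aestronglyMeasurable 1
        (Eventually.of_forall fun x => (hf' x).le)
    simp only [Fin.prod_univ_two, Matrix.cons_val_zero, Matrix.cons_val_one, inv_zpow'] at h
    exact ⟨_, lim (u := fun x => (starRingEnd ℂ) (f x) ^ 2)
      ((Complex.continuous_conj.measurable.comp hf).pow_const 2) (fun x => by simp [hf'])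
      (fun n => (hf.comp (hz _)).mul (hf.comp (hz _))) (fun n x => by simp [hf']) hg h⟩

open DriftA in
theorem slow {K j : ℕ} (h : j ≤ K) :
    ‖∏ i ∈ range (K + j), kap i - ∏ i ∈ range K, kap i‖ ≤ 1 / 64 := by
  have h1 : ∀ i, ‖kap i‖ ≤ 1 := fun i => by
    rw [kap_eq]
    exact norm_expect_le_of_le fun p => (norm_ee _).le
  have h2 : ∀ i, ‖kap (K + i) - 1‖ ≤ 1 / (64 * (K + 1)) := fun i => by
    rw [kap_eq, ← expect_const (univ_nonempty (α := Fin (len (K + i)) × Fin (len (K + i)))) (1 : ℂ),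
      ← expect_sub_distrib]
    refine norm_expect_le_of_le fun p => (norm_ee_sub_one_le _).trans ?_
    obtain ⟨a1, a2⟩ := ph_bd _ p
    have a3 : tt (K + i) ≤ 1 / (2 ^ 10 * (K + 1)) :=
      one_div_le_one_div_of_le (by positivity) (by gcongr; omega)
    rw [abs_of_nonneg a1]
    calc _ ≤ 2 * 4 * (2 * (1 / (2 ^ 10 * (K + 1) : ℝ))) := by
          gcongr
          exacts [Real.pi_le_four, by linarith]
      _ = _ := by field_simp; norm_num
  have h3 := (prod_sub (fun i => kap (K + i)) (fun _ => 1) (fun i => h1 _) (by simp) j).trans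
    (sum_le_card_nsmul _ _ _ fun i _ => h2 i)
  have h4 : ‖∏ i ∈ range K, kap i‖ ≤ 1 :=
    (Finset.norm_prod_le _ _).trans (prod_le_one (fun _ _ => norm_nonneg _) fun i _ => h1 i)
  have h5 : (j : ℝ) ≤ K := by exact_mod_cast h
  rw [prod_const_one, card_range, nsmul_eq_mul, mul_one_div] at h3
  rw [prod_range_add, ← mul_sub_one, norm_mul]
  refine (mul_le_of_le_one_left (norm_nonneg _) h4).trans (h3.trans ?_)
  rw [div_le_div_iff₀ (by positivity) (by norm_num)]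
  linarith

theorem seq' (hC : S_C) (hs : S_sys) (he : S_eval) (hd : S_drift) : ∃ a : ℕ → ℤ, StrictMono a ∧
    (∀ (I : Type) [Fintype I] (ψ : ℤ → ℂ), Elem I ψ → Cv a ψ) ∧
      ¬ GoodForCommuting.{0} 2 (fun _ => a) := by
  obtain ⟨C, c1, c2, c3⟩ := bad' hs he
  obtain ⟨K, hK⟩ := eventually_atTop.1 ((level C c1).and (eventually_gt_atTop 0))
  have hK0 := (hK K le_rfl).2
  choose S s1 s2 s3 s4 using fun b => (hK (K + b) (Nat.le_add_right _ _)).1
  obtain ⟨a, ha, hB⟩ := enum S (fun b => reach (K + b))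
    (fun i j h => sum_le_sum_of_subset (range_mono (by omega))) s2 fun b =>
      card_pos.1 (by rw [s1]; positivity)
  simp only [s1] at hB
  let a' : ℕ → ℤ := fun n => Nat.casesOn n (-1) fun n => a n
  have e1 : ∀ (ψ : ℤ → ℂ) (N : ℕ), ∑ n ∈ Icc 1 N, ψ (a' n) = ∑ n ∈ range N, ψ (a n) := by
    intro ψ N
    rw [← Ico_add_one_right_eq_Icc, sum_Ico_eq_sum_range]
    simp only [Nat.add_sub_cancel, add_comm 1, a']
  have t1 : Tendsto (fun b : ℕ => K + b) atTop atTop :=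
    tendsto_atTop_mono (fun b => Nat.le_add_left b K) tendsto_id
  have t0 : Tendsto (fun b : ℕ => 30 / ((K + b : ℕ) : ℝ)) atTop (𝓝 0) :=
    (tendsto_const_div_atTop_nhds_zero_nat 30).comp t1
  refine ⟨a', strictMono_nat_of_lt_succ fun n => ?_, fun I _ ψ hψ => ?_, fun hG => ?_⟩
  · cases n with
    | zero => exact neg_one_lt_zero.trans_le (Int.natCast_nonneg _)
    | succ n => exact Int.ofNat_lt.2 (ha (Nat.lt_succ_self n))
  · obtain ⟨L, hL⟩ := hC I ψ hψ
    obtain ⟨B, -, hb⟩ := hψ.exists_bound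
    have h1 := elem_mem (closed_diff S fun b => K + b) (fun ξ hξ q hq => by
      obtain ⟨β, hβ⟩ := gq_of_mem hq
      refine squeeze_zero_norm' ?_ t0
      filter_upwards [t1.eventually hβ] with b hb
      rw [funext hb, s1, Nat.cast_pow]
      simp only [hb]
      exact s4 b (fun i => ξ i) (fun i => hξ i) _) I ψ hψ
    have h2 := h1.add (hL.comp t1)
    simp only [s1, Nat.cast_pow, Function.comp_apply, sub_add_cancel, zero_add] at h2
    exact ⟨L, by simpa only [e1] using cesaro hK0 (fun n => hb (a n)) (hB fun m => ψ m) h2⟩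
  · obtain ⟨L, hL⟩ := c3 a' hG
    simp only [e1] at hL
    obtain ⟨N, hN⟩ := eventually_atTop.1 ((window hK0 (hB fun m => C m) hL (ε := 1 / 20)
      (by norm_num)).and (eventually_ge_atTop 300))
    have h1 : ∀ k, K + N ≤ k → ‖∏ i ∈ range k, kap i - L‖ ≤ 2 / 5 := fun k hk => by
      obtain ⟨b, rfl⟩ := Nat.exists_eq_add_of_le ((Nat.le_add_right K N).trans hk)
      obtain ⟨h2, h3⟩ := hN b (by omega)
      refine (h2 _ (1 / 10 + 1 / 20 + 1 / 64) fun j hj => ?_).trans (by norm_num)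
      have a1 := s3 (b + j)
      have a2 := c2 (K + (b + j))
      have a3 := slow (K := K + b) (j := j) (by omega)
      have a4 : (300 : ℝ) ≤ (K + (b + j) : ℕ) := by exact_mod_cast (by omega : 300 ≤ K + (b + j))
      rw [add_assoc] at a3
      rw [← dist_eq_norm] at a1 a2 a3 ⊢
      refine (dist_triangle4 _ _ _ _).trans (add_le_add_three (a1.trans ?_) a2 a3)
      rw [div_le_div_iff₀ (by linarith) (by norm_num)]
      linarith
    obtain ⟨k, k', k1, k2, k3⟩ := hd (K + N)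
    linarith [h1 k k1, h1 k' k2, norm_sub_le_norm_sub_add_norm_sub (∏ i ∈ range k, kap i) L
      (∏ i ∈ range k', kap i), norm_sub_rev L (∏ i ∈ range k', kap i)]

theorem final' (hC : S_C) (hprod : S_prod) (h1 : S_lie1.{u}) (h2 : S_lie2.{u}) (he : S_exp.{u})
    (hg : S_grp.{u}) (hii : S_ii.{u}) (hs : S_sys) (hv : S_eval) (hd : S_drift) :
    ∃ a : ℕ → ℤ, StrictMono a ∧ GoodForNilsystems.{u} 2 2 (fun _ => a) ∧
      (∀ ψ : (Fin 2 → ℤ) → ℂ, IsNilsequence.{u} 2 2 ψ → ∃ L : ℂ, Tendsto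
        (fun N : ℕ => (N : ℂ)⁻¹ * ∑ n ∈ Finset.Icc 1 N, ψ (fun _ => a n)) atTop (𝓝 L)) ∧
      ¬ GoodForCommuting.{0} 2 (fun _ => a) := by
  obtain ⟨a, ha, hE, hb⟩ := seq' hC hs hv hd
  refine ⟨a, ha, ?_, fun ψ hψ => ?_, hb⟩
  · intro d G _ _ _ _ _ _ Γ hl hd hc _ _ m _ hm b _ f hf
    have := topologicalGroup_of_lieGroup (modelWithCornersSelf ℝ (Fin d → ℝ))
      ((⊤ : ℕ∞) : WithTop ℕ∞) (G := G)
    have : IsClosed (Γ : Set G) := Subgroup.isClosed_of_discrete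
    obtain ⟨g, hg1, hg2⟩ := hii (G ⧸ Γ) m (fun n x => b 0 ^ a n • x) (fun n x => b 1 ^ a n • x)
      (fun n => hm _) (fun n => hm _) (fun f₁ f₂ hf₁ hf₂ x => by
        obtain ⟨B₂, hB₂⟩ := isCompact_univ.exists_bound_of_continuousOn hf₂.continuousOn
        have s1 : ∀ φ, Elem (Fin d) φ → Cv a fun n => φ n * f₂ (b 1 ^ n • x) := by
          intro φ hφ
          obtain ⟨B, hB0, hB⟩ := hφ.exists_bound
          have := nil_mem h1 h2 he hg d G Γ hl _ (closed_mul' (closed_cv a) hB0 hB)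
            (fun ψ hψ => hE _ _ (hprod _ _ ψ φ hψ hφ)) f₂ hf₂ (b 1) 1 x
          simpa only [one_zpow, mul_one, mul_comm] using this
        have s2 := nil_mem h1 h2 he hg d G Γ hl _
          (closed_mul' (closed_cv a) (φ := fun n => f₂ (b 1 ^ n • x)) (B := |B₂| + 1)
            (by positivity) fun n => by
              linarith [hB₂ (b 1 ^ n • x) (Set.mem_univ _), le_abs_self B₂]) s1 f₁ hf₁ (b 0) 1 x
        simpa only [Cv, one_zpow, mul_one] using s2) (f 0) (f 1) (hf 0) (hf 1)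
    exact ⟨g, hg1, by simpa only [Fin.prod_univ_two] using hg2⟩
  · refine (closed_cv a).2.2.2 (fun n => ψ fun _ => n) fun ε hε => ?_
    obtain ⟨φ, ⟨d, G, _, _, _, _, _, _, Γ, b, x, F, hl, -, hc, hF, hφ⟩, h4⟩ := hψ ε hε
    refine ⟨fun n => φ fun _ => n, ?_, fun n => h4 _⟩
    simpa [hφ, List.ofFn_succ] using
      nil_mem h1 h2 he hg d G Γ hl _ (closed_cv a) (hE _) F hF (b 0) (b 1) x

end Pool.Agent.P.MP_2957ea_an.Inc
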