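import Pool.Agent.P.MP_2957ea_an.NC.Trig

/-!
Bracket quadratic phases: a finite net on an interval, and approximation of elementary sequences.
-/

namespace Pool.Agent.P.MP_2957ea_an.Inc

open Finset Filter Topology Pool.Agent.P.MP_2957ea_an Pool.Agent.P.MP_2957ea_an.NC
open scoped BigOperators

/-- The constant one for `i = 0`, and the bracket `⌊n c⌋` otherwise. -/
noncomputable def xx (c : ℝ) (i : ℕ) (n : ℤ) : ℤ := if i = 0 then 1 else ⌊(n : ℝ) * c⌋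

/-- A bracket quadratic phase in `K` variables. -/
noncomputable def gq (K : ℕ) (ξ : Fin K → ℝ) (β : Fin K × Fin K → ℝ) (n : ℤ) : ℂ :=
  ee (∑ p, β p * ((xx (ξ p.1) p.1 n * xx (ξ p.2) p.2 n : ℤ) : ℝ))

/-- The index set of the net. -/
abbrev NT (K W : ℕ) := (Fin K → Fin W × Fin W) × (Fin K × Fin K → Fin (W ^ 3))

/-- The points of the net. -/
noncomputable def gT {K W : ℕ} (t : NT K W) : ℤ → ℂ :=
  gq K (fun i => ((t.1 i).1 : ℕ) / ((t.1 i).2 : ℕ)) fun p => (t.2 p : ℕ) / (W : ℝ) ^ 3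

theorem farey {W : ℕ} (hW : 2 ≤ W) {c : ℝ} (h0 : 0 ≤ c) (h1 : c ≤ 1) :
    ∃ t : Fin W × Fin W, ∀ n : ℤ, 0 ≤ n → n < W →
      ⌊(n : ℝ) * (((t.1 : ℕ) : ℝ) / (t.2 : ℕ))⌋ = ⌊(n : ℝ) * c⌋ := by
  obtain ⟨b, hb, h⟩ := exists_max_image (Ico 1 W) (fun b : ℕ => (⌊(b : ℝ) * c⌋₊ : ℝ) / b)
    ⟨1, mem_Ico.2 ⟨le_rfl, hW⟩⟩
  obtain ⟨b1, b2⟩ := mem_Ico.1 hb
  have hb0 : (0 : ℝ) < b := by exact_mod_cast b1
  have h2 : (⌊(b : ℝ) * c⌋₊ : ℝ) ≤ b * c := Nat.floor_le (by positivity)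
  have h3 : ⌊(b : ℝ) * c⌋₊ ≤ b := by exact_mod_cast h2.trans (mul_le_of_le_one_right hb0.le h1)
  refine ⟨(⟨_, h3.trans_lt b2⟩, ⟨b, b2⟩), fun n n0 n1 => ?_⟩
  lift n to ℕ using n0
  rcases Nat.eq_zero_or_pos n with rfl | hn
  · simp
  have hn0 : (0 : ℝ) < n := by exact_mod_cast hn
  have h4 := h n (mem_Ico.2 ⟨hn, by exact_mod_cast n1⟩)
  rw [div_le_iff₀' hn0] at h4
  refine le_antisymm (Int.floor_mono ?_) (Int.le_floor.2 ?_)
  · exact mul_le_mul_of_nonneg_left ((div_le_iff₀' hb0).2 h2) (by positivity)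
  · rw [← Int.natCast_floor_eq_floor (by positivity)]
    simpa using h4

theorem net {K W : ℕ} (hW : 2 ≤ W) (ξ : Fin K → ℝ) (hξ : ∀ i, 0 ≤ ξ i ∧ ξ i ≤ 1)
    (β : Fin K × Fin K → ℝ) : ∃ t : NT K W, ∀ n : ℤ, 0 ≤ n → n < W →
      ‖gq K ξ β n - gT t n‖ ≤ 8 * K ^ 2 / W := by
  choose t ht using fun i => farey hW (hξ i).1 (hξ i).2
  have hW0 : (0 : ℝ) < W := by exact_mod_cast (by omega : 0 < W)
  have h1 : ∀ p, ⌊Int.fract (β p) * (W : ℝ) ^ 3⌋₊ < W ^ 3 := fun p =>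
    (Nat.floor_lt (mul_nonneg (Int.fract_nonneg _) (by positivity))).2 (by
      push_cast
      exact mul_lt_of_lt_one_left (by positivity) (Int.fract_lt_one _))
  refine ⟨(t, fun p => ⟨_, h1 p⟩), fun n n0 n1 => ?_⟩
  have h2 : ∀ i : Fin K, xx ((((t i).1 : ℕ) : ℝ) / ((t i).2 : ℕ)) i n = xx (ξ i) i n := fun i => by
    rw [xx, xx, ht i n n0 n1]
  have h3 : ∀ i : Fin K, |(xx (ξ i) i n : ℝ)| ≤ W := fun i => by
    have a0 : (0 : ℝ) ≤ n := by exact_mod_cast n0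
    have a1 : (n : ℝ) ≤ W := by exact_mod_cast n1.le
    unfold xx
    split_ifs
    · simpa using (by omega : 1 ≤ W)
    · rw [abs_of_nonneg (by exact_mod_cast Int.floor_nonneg.2 (mul_nonneg a0 (hξ i).1))]
      exact (Int.floor_le _).trans ((mul_le_of_le_one_right a0 (hξ i).2).trans a1)
  simp only [gT, gq, h2]
  set X : Fin K × Fin K → ℤ := fun p => xx (ξ p.1) p.1 n * xx (ξ p.2) p.2 n with hX
  have h4 : ∑ p, β p * (X p : ℝ) =
      ∑ p, Int.fract (β p) * (X p : ℝ) + ((∑ p, ⌊β p⌋ * X p : ℤ) : ℝ) := by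
    push_cast
    rw [← sum_add_distrib]
    exact sum_congr rfl fun p _ => by rw [← add_mul, Int.fract_add_floor]
  rw [h4, ee_add_int]
  refine (norm_ee_sub_ee_le _ _).trans ?_
  rw [← sum_sub_distrib]
  have h5 : ∀ p, |Int.fract (β p) * (X p : ℝ) -
      (⌊Int.fract (β p) * (W : ℝ) ^ 3⌋₊ : ℝ) / (W : ℝ) ^ 3 * X p| ≤ 1 / W := fun p => by
    have a1 := Nat.abs_sub_floor_le
      (mul_nonneg (Int.fract_nonneg (β p)) (show 0 ≤ (W : ℝ) ^ 3 by positivity))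
    have a2 : |(X p : ℝ)| ≤ W * W := by
      rw [hX]
      push_cast
      rw [abs_mul]
      exact mul_le_mul (h3 _) (h3 _) (abs_nonneg _) hW0.le
    rw [← sub_mul, abs_mul, sub_div' (by positivity), abs_div, abs_of_pos (pow_pos hW0 3)]
    calc _ ≤ 1 / (W : ℝ) ^ 3 * (W * W) := by gcongr
      _ = 1 / W := by field_simp
  have h6 := (abs_sum_le_sum_abs _ _).trans (sum_le_card_nsmul univ _ _ fun p _ => h5 p)
  rw [nsmul_eq_mul, card_univ, Fintype.card_prod, Fintype.card_fin] at h6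
  calc _ ≤ 2 * 4 * (((K * K : ℕ) : ℝ) * (1 / W)) := by gcongr; exact Real.pi_le_four
    _ = _ := by push_cast; ring

/-- The functions spanned by the brackets. -/
noncomputable def VV (ξ : ℕ → ℝ) : Submodule ℝ (ℤ → ℝ) :=
  Submodule.span ℝ (Set.range fun (i : ℕ) (n : ℤ) => (xx (ξ i) i n : ℝ))

theorem gq_of_mem {ξ : ℕ → ℝ} {q : ℤ → ℝ} (h : q ∈ VV ξ * VV ξ) : ∃ β : ℕ × ℕ → ℝ,
    ∀ᶠ K in atTop, ∀ n, ee (q n) = gq K (fun i => ξ i) (fun p => β (p.1, p.2)) n := by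
  rw [VV, Submodule.span_mul_span, ← Set.image2_mul, Set.image2_range] at h
  obtain ⟨β, rfl⟩ := Finsupp.mem_span_range_iff_exists_finsupp.1 h
  refine ⟨β, ?_⟩
  filter_upwards [eventually_gt_atTop (β.support.sup fun p => max p.1 p.2)] with K hK n
  rw [gq, Fintype.sum_prod_type, Finsupp.sum_of_support_subset (s := range K ×ˢ range K) _
    (fun p hp => by
      have := (le_sup (f := fun p : ℕ × ℕ => max p.1 p.2) hp).trans_lt hK
      simpa using this) _ (by simp), sum_product, sum_range]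
  simp [sum_range]

section

variable {I : Type} [Fintype I] {ω : BF I} {Φ : (I → ℝ) → ℂ} {V : Submodule ℝ (ℤ → ℝ)}

theorem om_mem (ω : BF I) {u v : ℤ → I → ℝ} (hu : ∀ l, (fun n => u n l) ∈ V)
    (hv : ∀ l, (fun n => v n l) ∈ V) : (fun n => ω (u n) (v n)) ∈ V * V := by
  classical
  have h : (fun n => ω (u n) (v n)) = ∑ l, ∑ m, ω (Pi.single l 1) (Pi.single m 1) •
      ((fun n => u n l) * fun n => v n m) := by
    funext n
    conv_lhs => rw [pi_eq_sum_univ' (u n), pi_eq_sum_univ' (v n)]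
    simp only [map_sum, map_smul, LinearMap.sum_apply, LinearMap.smul_apply, smul_eq_mul,
      Finset.sum_apply, Pi.smul_apply, Pi.mul_apply, mul_sum]
    rw [sum_comm]
    exact sum_congr rfl fun l _ => sum_congr rfl fun m _ => by ring
  rw [h]
  exact sum_mem fun l _ => sum_mem fun m _ =>
    Submodule.smul_mem _ _ (Submodule.mul_mem_mul (hu l) (hv m))

theorem per_mem (h : QP ω Φ) (h1 : (1 : ℤ → ℝ) ∈ V) (k : ℤ → I → ℤ)
    (hk : ∀ l, (fun n => (k n l : ℝ)) ∈ V) (u : ℤ → I → ℝ) (hu : ∀ l, (fun n => u n l) ∈ V) :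
    ∃ q ∈ V * V, ∀ n, Φ (u n + iv (k n)) = ee (q n) * Φ (u n) := by
  classical
  suffices key : ∀ s : Finset I, ∃ q ∈ V * V, ∀ n,
      Φ (u n + ∑ l ∈ s, (k n l : ℝ) • iv (Pi.single l 1)) = ee (q n) * Φ (u n) by
    obtain ⟨q, q1, q2⟩ := key univ
    refine ⟨q, q1, fun n => (congrArg (fun w => Φ (u n + w)) ?_).trans (q2 n)⟩
    funext l
    simp [iv, Pi.single_apply]
  intro s
  induction s using Finset.induction_on with
  | empty => exact ⟨0, zero_mem _, fun n => by simp [ee_zero]⟩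
  | insert a s ha ih =>
    obtain ⟨q, q1, q2⟩ := ih
    obtain ⟨c, hc, h2⟩ := h.2.2 (Pi.single a 1)
    obtain ⟨t, rfl⟩ := exists_ee hc
    have h3 : ∀ (s : Finset I) l, (fun n => (∑ i ∈ s, (k n i : ℝ) • iv (Pi.single i 1)) l) ∈ V :=
      fun s l => by
        have := sum_mem fun i (_ : i ∈ s) => V.smul_mem (iv (Pi.single i (1 : ℤ)) l) (hk i)
        convert this using 1
        funext n
        simp [mul_comm]
    refine ⟨_, add_mem (add_mem (Submodule.smul_mem _ t (Submodule.mul_mem_mul (hk a) h1))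
      (om_mem ω (u := fun n => (k n a : ℝ) • iv (Pi.single a 1)) (by simpa using h3 {a})
        (v := fun n => u n + ∑ l ∈ s, (k n l : ℝ) • iv (Pi.single l 1))
        fun l => add_mem (hu l) (h3 s l))) q1, fun n => ?_⟩
    rw [sum_insert ha, add_comm ((k n a : ℝ) • _), ← add_assoc, per_zsmul h.1 h2, q2]
    simp [ee_add, mul_comm, mul_assoc]

end

theorem elem_mem {P : (ℤ → ℂ) → Prop} (hP : Closed P)
    (h : ∀ ξ : ℕ → ℝ, (∀ i, 0 ≤ ξ i ∧ ξ i ≤ 1) → ∀ q ∈ VV ξ * VV ξ, P fun n => ee (q n))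
    (I : Type) [Fintype I] (ψ : ℤ → ℂ) (hψ : Elem I ψ) : P ψ := by
  obtain ⟨ω, Φ, ξ, τ, σ, hQ, rfl⟩ := hψ
  obtain ⟨e, he⟩ := Countable.exists_injective_nat I
  let ξ' : ℕ → ℝ := fun i => Function.extend (fun l => e l + 2) (fun l => Int.fract (ξ l)) 1 i
  have he' : Function.Injective fun l => e l + 2 := fun a b h => he (by simpa using h)
  have h0 : ∀ i, 0 ≤ ξ' i ∧ ξ' i ≤ 1 := fun i => by
    by_cases hi : ∃ l, e l + 2 = i
    · obtain ⟨l, rfl⟩ := hi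
      simp only [ξ', he'.extend_apply]
      exact ⟨Int.fract_nonneg _, (Int.fract_lt_one _).le⟩
    · simp [ξ', Function.extend_apply' _ _ _ hi]
  have hb : ∀ i, (fun n => (xx (ξ' i) i n : ℝ)) ∈ VV ξ' := fun i => Submodule.subset_span ⟨i, rfl⟩
  have h1 : (1 : ℤ → ℝ) ∈ VV ξ' := by simpa [xx, Pi.one_def] using hb 0
  have h2 : (fun n : ℤ => (n : ℝ)) ∈ VV ξ' := by
    have : ξ' 1 = 1 := by simp [ξ', Function.extend_apply']
    simpa [xx, this] using hb 1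
  have h3 : ∀ l, (fun n : ℤ => (⌊(n : ℝ) * ξ l⌋ : ℝ)) ∈ VV ξ' := fun l => by
    have := add_mem (hb (e l + 2)) ((VV ξ').smul_mem (⌊ξ l⌋ : ℝ) h2)
    convert this using 1
    funext n
    have a1 : (n : ℝ) * ξ l = n * Int.fract (ξ l) + ((⌊ξ l⌋ * n : ℤ) : ℝ) := by
      push_cast
      rw [Int.fract]
      ring
    rw [a1, Int.floor_add_intCast]
    simp [xx, ξ', he'.extend_apply]
  have h4 : ∀ l, (fun n : ℤ => Int.fract ((n : ℝ) * ξ l)) ∈ VV ξ' := fun l => by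
    have := sub_mem ((VV ξ').smul_mem (ξ l) h2) (h3 l)
    convert this using 1
    funext n
    exact congrArg (· - _) (mul_comm _ _)
  obtain ⟨q, q1, q2⟩ := per_mem hQ h1 (fun n l => ⌊(n : ℝ) * ξ l⌋) h3
    (fun n l => Int.fract ((n : ℝ) * ξ l)) h4
  refine hP.2.2.2 _ fun ε hε => ?_
  have hnd : Continuous nd := by
    rw [show nd = fun x : ℝ => ‖(x : UnitAddCircle)‖ from funext nd_eq_norm]
    fun_prop
  obtain ⟨F, B, -, h5⟩ := TrigA.main (fun p : (I → ℝ) × (I → ℝ) => Φ fun l => 2 * nd (p.2 l))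
    (hQ.2.1.comp (by fun_prop)) (fun Y w k => by simp [iv, nd_add_int]) hε
  obtain ⟨a, -, h6⟩ := h5 0 (by simp)
  refine ⟨_, hP.sum F _ fun k _ => hP.2.2.1 (a k) _ (h ξ' h0 _ (add_mem (add_mem q1
    (Submodule.mul_mem_mul (sum_mem fun l (_ : l ∈ univ) =>
      (VV ξ').smul_mem ((k l : ℝ) / 2) (h4 l)) h1))
    (Submodule.mul_mem_mul (add_mem ((VV ξ').smul_mem τ h2) ((VV ξ').smul_mem σ h1)) h2))),
    fun n => ?_⟩
  have h7 := h6 fun l => Int.fract ((n : ℝ) * ξ l) / 2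
  have h8 : (fun l => 2 * nd (Int.fract ((n : ℝ) * ξ l) / 2)) =
      fun l => Int.fract ((n : ℝ) * ξ l) := funext fun l => by
    have a0 := Int.fract_nonneg ((n : ℝ) * ξ l)
    have a1 := Int.fract_lt_one ((n : ℝ) * ξ l)
    rw [nd_eq_abs (by rw [abs_of_nonneg] <;> linarith), abs_of_nonneg (by linarith)]
    ring
  have h9 : (n : ℝ) • ξ = (fun l => Int.fract ((n : ℝ) * ξ l)) + iv fun l => ⌊(n : ℝ) * ξ l⌋ := by
    funext l
    simp [iv]
  simp only [h8] at h7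
  rw [← one_mul ‖_‖, ← norm_ee (q n + (τ * (n : ℝ) ^ 2 + σ * n)), ← norm_mul, mul_sub,
    mul_sum] at h7
  rw [NC.sq, h9, q2]
  convert h7 using 3
  · rw [ee_add (q n)]
    ring
  · refine sum_congr rfl fun k _ => ?_
    rw [mul_left_comm, ← ee_add]
    congr 2
    simp only [dot, Pi.add_apply, Pi.mul_apply, Finset.sum_apply, Pi.smul_apply, smul_eq_mul,
      Pi.one_apply, mul_one, div_mul_eq_mul_div, mul_div_assoc]
    ring

end Pool.Agent.P.MP_2957ea_an.Inc
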