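import Pool.Agent.P.MP_2957ea_an.Inc.Thin
import Pool.Agent.P.MP_2957ea_an.Inc.Net

/-!
At each large level `K` a set of `K ^ 7` integers reproduces the level average of every bracket
quadratic phase in `K` variables and of one given bounded sequence.
-/

namespace Pool.Agent.P.MP_2957ea_an.Inc

open Finset Filter Topology Pool.Agent.P.MP_2957ea_an Pool.Agent.P.MP_2957ea_an.NC
open scoped BigOperators

theorem pos_le (K : ℕ) : pos K ≤ 2 ^ (36 * K ^ 2) := by
  induction K with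
  | zero => exact le_rfl
  | succ K ih =>
    have h1 : gp K ≤ 2 ^ (2 * K + 10) := by
      rw [gp, show 2 * K + 10 = K + 10 + K by ring, pow_add _ (K + 10)]
      exact Nat.mul_le_mul_left _ Nat.lt_two_pow_self
    calc pos (K + 1) = gp K ^ 3 * pos K := by rw [pos_succ, len]; ring
      _ ≤ (2 ^ (2 * K + 10)) ^ 3 * 2 ^ (36 * K ^ 2) := by gcongr
      _ ≤ _ := by
        rw [← pow_mul, ← pow_add]
        exact Nat.pow_le_pow_right two_pos (by nlinarith)

theorem card_le {K : ℕ} (hK : 723 ≤ K) :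
    4 * (Fintype.card (Option (NT K (pos (K + 1)))) : ℝ) ≤ Real.exp (K ^ 5) := by
  have h1 : pos (K + 1) ≤ 2 ^ (144 * K ^ 2) :=
    (pos_le _).trans (Nat.pow_le_pow_right two_pos (by nlinarith))
  have h2 : Fintype.card (NT K (pos (K + 1))) ≤ 2 ^ (720 * K ^ 4) := by
    simp only [Fintype.card_prod, Fintype.card_fun, Fintype.card_fin]
    calc _ ≤ (2 ^ (144 * K ^ 2) * 2 ^ (144 * K ^ 2)) ^ (K * K) *
          ((2 ^ (144 * K ^ 2)) ^ 3) ^ (K * K) := by
          refine Nat.mul_le_mul (le_trans (by gcongr) (Nat.pow_le_pow_right (by positivity)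
            (Nat.le_mul_self K))) (by gcongr)
      _ = _ := by
          simp only [← pow_mul, ← pow_add]
          congr 1
          ring
  have h3 : 4 * Fintype.card (Option (NT K (pos (K + 1)))) ≤ 2 ^ (K ^ 5) := by
    have h4 : 1 ≤ 2 ^ (720 * K ^ 4) := Nat.one_le_two_pow
    have h5 : 1 ≤ K ^ 4 := Nat.one_le_pow _ _ (by omega)
    rw [Fintype.card_option]
    calc _ ≤ 2 ^ (720 * K ^ 4 + 3) := by rw [pow_add]; omega
      _ ≤ _ := Nat.pow_le_pow_right two_pos (by rw [pow_succ K 4]; nlinarith)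
  calc _ ≤ ((2 ^ (K ^ 5) : ℕ) : ℝ) := by exact_mod_cast h3
    _ ≤ Real.exp 1 ^ (K ^ 5) := by
        push_cast
        gcongr
        linarith [Real.add_one_le_exp 1]
    _ = _ := by rw [← Real.exp_nat_mul]; simp

/-- The integer attached to a pair of digit strings. -/
def vl (K : ℕ) (ω : Box (rl K) × Box (rl K)) : ℕ := ((pos K : ℤ) + val _ ω.1 - val _ ω.2).toNat

theorem vl_spec (K : ℕ) (ω : Box (rl K) × Box (rl K)) :
    (vl K ω : ℤ) = pos K + val _ ω.1 - val _ ω.2 ∧ reach K ≤ vl K ω ∧ vl K ω < reach (K + 1) := by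
  have a1 := val_nonneg _ ω.1
  have a2 := val_nonneg _ ω.2
  have a3 := val_rl_le _ ω.1
  have a4 := val_rl_le _ ω.2
  have a5 := two_mul_reach_le K
  have a6 : reach (K + 1) = reach K + len K * pos K := sum_range_succ _ _
  have a7 : 2 * pos K ≤ len K * pos K :=
    Nat.mul_le_mul_right _ (le_trans (by norm_num) ((gp_ge K).trans (gp_le_len K)))
  have a8 := pos_pos K
  unfold vl
  omega

theorem atom (k m : ℕ) :
    𝔼 ω, (if vl (k + 1) ω = m then (1 : ℝ) else 0) ≤ 1 / len k := by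
  rw [← univ_product_univ, expect_product, expect_comm]
  refine expect_le univ_nonempty fun s' _ => ?_
  refine (expect_cons k (rl k) _).trans_le ?_
  rw [expect_comm]
  refine expect_le univ_nonempty fun s _ => ?_
  rw [expect_eq_sum_div_card, card_univ, Fintype.card_fin, sum_boole]
  gcongr
  refine Nat.cast_le_one.2 (card_le_one.2 fun u hu u' hu' => ?_)
  have h1 := (vl_spec (k + 1) ((u, s), s')).1
  have h2 := (vl_spec (k + 1) ((u', s), s')).1
  rw [(mem_filter.1 hu).2] at h1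
  rw [(mem_filter.1 hu').2, h1] at h2
  have h3 : ((u : ℕ) : ℤ) * pos k = ((u' : ℕ) : ℤ) * pos k :=
    add_right_cancel (add_left_cancel (sub_left_injective h2))
  exact Fin.ext (by exact_mod_cast mul_right_cancel₀ (by exact_mod_cast (pos_pos k).ne') h3)

theorem level (v : ℤ → ℂ) (hv : ∀ n, ‖v n‖ ≤ 1) : ∀ᶠ K : ℕ in atTop, ∃ S : Finset ℕ,
    S.card = K ^ 7 ∧ (∀ n ∈ S, reach K ≤ n ∧ n < reach (K + 1)) ∧
      ‖((K : ℂ) ^ 7)⁻¹ * ∑ n ∈ S, v n - EA (rl K) v (pos K)‖ ≤ 30 / K ∧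
      ∀ ξ : Fin K → ℝ, (∀ i, 0 ≤ ξ i ∧ ξ i ≤ 1) → ∀ β,
        ‖((K : ℂ) ^ 7)⁻¹ * ∑ n ∈ S, gq K ξ β n - EA (rl K) (gq K ξ β) (pos K)‖ ≤ 30 / K := by
  filter_upwards [eventually_ge_atTop 723, (tendsto_pow_const_div_const_pow_of_one_lt 9
    (r := 2) one_lt_two).eventually_le_const one_pos] with K hK hK'
  have hK0 : (723 : ℝ) ≤ K := by exact_mod_cast hK
  have hK1 : (0 : ℝ) < K := by linarith
  obtain ⟨S, h1, h2, h3⟩ := thin (vl K) (fun (i : Option (NT K (pos (K + 1)))) n =>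
      i.elim (v n) fun t => gT t n) (by
      rintro (_ | t) n
      exacts [hv _, (norm_ee _).le]) (l := 1 / K) (p := 1 / K ^ 9) (K ^ 7) (by positivity)
      (one_div_le_one_div_of_le (by norm_num) (by linarith)) (fun m => by
        obtain ⟨k, rfl⟩ : ∃ k, K = k + 1 := ⟨K - 1, by omega⟩
        refine (atom k m).trans (one_div_le_one_div_of_le (by positivity) ?_)
        rw [div_le_one (by positivity)] at hK'
        refine hK'.trans ?_
        exact_mod_cast (Nat.pow_le_pow_right two_pos (by omega)).trans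
          ((two_pow_le_gp k).trans (gp_le_len k)))
      (le_of_eq (by push_cast; field_simp)) ((card_le hK).trans_eq (by
        congr 1; push_cast; field_simp))
  have hE : ∀ g : ℤ → ℂ, EA (rl K) g (pos K) = 𝔼 ω, g (vl K ω) := fun g => by
    rw [EA, ← expect_product', univ_product_univ]
    simp only [(vl_spec K _).1]
  have hn : ∀ z : ℂ, ‖((K : ℂ) ^ 7)⁻¹ * z‖ = ‖z‖ / K ^ 7 := fun z => by
    simp [div_eq_inv_mul]
  have h4 : ∀ (g : ℤ → ℂ), ‖∑ n ∈ S, g n - ((K ^ 7 : ℕ) : ℂ) * 𝔼 ω, g (vl K ω)‖ ≤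
      14 * (1 / K) * ((K ^ 7 : ℕ) : ℝ) →
      ‖((K : ℂ) ^ 7)⁻¹ * ∑ n ∈ S, g n - EA (rl K) g (pos K)‖ ≤ 14 / K := fun g h => by
    have : (K : ℂ) ≠ 0 := by exact_mod_cast hK1.ne'
    rw [hE, ← inv_mul_cancel_left₀ (pow_ne_zero 7 this) (𝔼 ω, g (vl K ω)), ← mul_sub, hn,
      div_le_iff₀ (by positivity)]
    push_cast at h
    exact h.trans_eq (by ring)
  have h5 : ∀ n ∈ S, reach K ≤ n ∧ n < reach (K + 1) := fun n hn => by
    obtain ⟨ω, rfl⟩ := h2 n hn
    exact (vl_spec K ω).2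
  refine ⟨S, h1, h5, (h4 v (h3 none)).trans (by gcongr; norm_num), fun ξ hξ β => ?_⟩
  have a1 := two_mul_reach_le (K + 1)
  have a2 := lt_pos (K + 1)
  obtain ⟨t, ht⟩ := net (W := pos (K + 1)) (by omega) ξ hξ β
  have h6 : ∀ n : ℕ, n < reach (K + 1) → ‖gq K ξ β n - gT t n‖ ≤ 8 / K := fun n h => by
    refine (ht n (by positivity) (by omega)).trans ?_
    have : K * K * K ≤ pos (K + 1) :=
      Nat.mul_le_mul (Nat.mul_le_mul (lt_gp K).le (lt_len K).le) (lt_pos K).le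
    have : (K : ℝ) * K * K ≤ pos (K + 1) := by exact_mod_cast this
    rw [div_le_div_iff₀ (by exact_mod_cast pos_pos _) hK1]
    nlinarith
  have h7 : ‖((K : ℂ) ^ 7)⁻¹ * ∑ n ∈ S, gq K ξ β n - ((K : ℂ) ^ 7)⁻¹ * ∑ n ∈ S, gT t n‖ ≤ 8 / K := by
    rw [← mul_sub, hn, div_le_iff₀ (by positivity), ← sum_sub_distrib]
    refine (norm_sum_le _ _).trans ((sum_le_card_nsmul _ _ _ fun n hn => h6 n (h5 n hn).2).trans ?_)
    simp [h1, mul_comm]
  have h8 : ‖EA (rl K) (gT t) (pos K) - EA (rl K) (gq K ξ β) (pos K)‖ ≤ 8 / K := by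
    rw [hE, hE, ← expect_sub_distrib]
    exact norm_expect_le_of_le fun ω => (norm_sub_rev _ _).trans_le (h6 _ (vl_spec K ω).2.2)
  have h9 := h4 (gT t) (h3 (some t))
  rw [← dist_eq_norm] at h7 h8 h9 ⊢
  refine (dist_triangle4 _ _ _ _).trans ((add_le_add_three h7 h9 h8).trans_eq ?_)
  ring

end Pool.Agent.P.MP_2957ea_an.Inc
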