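import Mathlib

/-!
A probability measure with small atoms is reproduced, on a finite family of bounded test
functions, by the uniform measure on a small set.
-/

namespace Pool.Agent.P.MP_2957ea_an.Inc

open Finset
open scoped BigOperators

variable {ι Ω : Type} [Fintype ι] [Fintype Ω] [Nonempty Ω]

theorem exp_mean (g : Ω → ℝ) (hg : ∀ ω, |g ω| ≤ 1) {l : ℝ} (hl : 0 < l) (hl' : l ≤ 1 / 4) :
    𝔼 ω, Real.exp (l * (g ω - 𝔼 ω, g ω)) ≤ 1 + 4 * l ^ 2 := by
  set m := 𝔼 ω, g ω with hm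
  have h1 : |m| ≤ 1 := abs_le.2 ⟨le_expect univ_nonempty fun ω _ => (abs_le.1 (hg ω)).1,
    expect_le univ_nonempty fun ω _ => (abs_le.1 (hg ω)).2⟩
  have h2 : ∀ ω, Real.exp (l * (g ω - m)) ≤ 1 + 4 * l ^ 2 + l * (g ω - m) := fun ω => by
    have h3 : |g ω - m| ≤ 2 := (abs_sub _ _).trans (by linarith [hg ω])
    have h4 : |l * (g ω - m)| ≤ 2 * l := by
      rw [abs_mul, abs_of_pos hl]
      nlinarith
    have h5 := (abs_le.1 (Real.abs_exp_sub_one_sub_id_le (h4.trans (by linarith)))).2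
    have h6 := sq_le_sq' (abs_le.1 h4).1 (abs_le.1 h4).2
    nlinarith
  refine (expect_le_expect fun ω _ => h2 ω).trans (le_of_eq ?_)
  rw [expect_add_distrib, ← mul_expect, expect_sub_distrib, expect_const univ_nonempty,
    expect_const univ_nonempty, ← hm, sub_self, mul_zero, add_zero]

theorem pick (val : Ω → ℕ) (S : Finset ℕ) (G : Ω → ℝ) (hG : ∀ ω, 0 ≤ G ω) {p q B t : ℝ}
    (hp : ∀ m, 𝔼 ω, (if val ω = m then (1 : ℝ) else 0) ≤ p) (hq : S.card * p ≤ q) (ht : 0 ≤ t)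
    (hB : 𝔼 ω, G ω ≤ B) (h : B < (1 - q) * t) : ∃ ω, val ω ∉ S ∧ G ω ≤ t := by
  by_contra hc
  push Not at hc
  have h1 : ∀ ω, t - t * ∑ m ∈ S, (if val ω = m then (1 : ℝ) else 0) ≤ G ω := fun ω => by
    rw [sum_ite_eq]
    split_ifs with h2
    · simpa using hG ω
    · simpa using (hc ω h2).le
  have h2 := expect_le_expect (s := univ) fun ω _ => h1 ω
  rw [expect_sub_distrib, expect_const univ_nonempty, ← mul_expect, expect_sum_comm] at h2
  have h3 := (sum_le_card_nsmul S _ p fun m _ => hp m).trans_eq (nsmul_eq_mul _ _)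
  nlinarith [mul_le_mul_of_nonneg_left (h3.trans hq) ht]

theorem thin0 [Nonempty ι] (val : Ω → ℕ) (f : ι → ℕ → ℝ) (hf : ∀ i n, |f i n| ≤ 1) {l p : ℝ}
    (s : ℕ) (hl : 0 < l) (hl' : l ≤ 1 / 4)
    (hp : ∀ m, 𝔼 ω, (if val ω = m then (1 : ℝ) else 0) ≤ p) (hs : s * p ≤ l ^ 2) :
    ∀ t ≤ s, ∃ S : Finset ℕ, S.card = t ∧ (∀ n ∈ S, ∃ ω, val ω = n) ∧
      ∑ i, Real.exp (l * ∑ n ∈ S, (f i n - 𝔼 ω, f i (val ω))) ≤
        Fintype.card ι * (1 + 6 * l ^ 2) ^ t := by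
  have hp0 : 0 ≤ p := le_trans (expect_nonneg fun ω _ => by positivity) (hp 0)
  intro t
  induction t with
  | zero => exact fun _ => ⟨∅, rfl, by simp, by simp⟩
  | succ t ih =>
    intro ht
    obtain ⟨S, h1, h2, h3⟩ := ih (by omega)
    have h0 : (0 : ℝ) < Fintype.card ι * (1 + 6 * l ^ 2) ^ t := by
      have := Fintype.card_pos (α := ι)
      positivity
    have h5 : l ^ 2 ≤ 1 / 16 := by nlinarith
    obtain ⟨ω, h6, h7⟩ := pick val S (fun ω => ∑ i, Real.exp (l * ∑ n ∈ S,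
      (f i n - 𝔼 ω, f i (val ω))) * Real.exp (l * (f i (val ω) - 𝔼 ω, f i (val ω))))
      (fun ω => by positivity) hp (q := l ^ 2)
      (t := Fintype.card ι * (1 + 6 * l ^ 2) ^ (t + 1))
      (B := Fintype.card ι * (1 + 6 * l ^ 2) ^ t * (1 + 4 * l ^ 2))
      (le_trans (by
        rw [h1]
        gcongr
        omega) hs) (by positivity) (by
        rw [expect_sum_comm]
        refine le_trans (sum_le_sum fun i _ => ?_) ((sum_mul _ _ _).ge.trans
          (mul_le_mul_of_nonneg_right h3 (by positivity)))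
        rw [← mul_expect]
        exact mul_le_mul_of_nonneg_left (exp_mean _ (fun ω => hf i _) hl hl') (by positivity)) (by
        rw [pow_succ _ t, ← mul_assoc _ _ (1 + 6 * l ^ 2), mul_left_comm]
        refine mul_lt_mul_of_pos_left ?_ h0
        have := pow_pos hl 2
        nlinarith)
    refine ⟨insert (val ω) S, by rw [card_insert_of_notMem h6, h1], fun n hn => ?_, ?_⟩
    · rcases mem_insert.1 hn with rfl | hn
      exacts [⟨ω, rfl⟩, h2 n hn]
    · simpa only [sum_insert h6, mul_add, Real.exp_add, mul_comm] using h7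

theorem thin [Nonempty ι] (val : Ω → ℕ) (g : ι → ℕ → ℂ) (hg : ∀ i n, ‖g i n‖ ≤ 1) {l p : ℝ}
    (s : ℕ) (hl : 0 < l) (hl' : l ≤ 1 / 4)
    (hp : ∀ m, 𝔼 ω, (if val ω = m then (1 : ℝ) else 0) ≤ p) (hs : s * p ≤ l ^ 2)
    (hc : 4 * (Fintype.card ι : ℝ) ≤ Real.exp (l ^ 2 * s)) :
    ∃ S : Finset ℕ, S.card = s ∧ (∀ n ∈ S, ∃ ω, val ω = n) ∧
      ∀ i, ‖∑ n ∈ S, g i n - s * 𝔼 ω, g i (val ω)‖ ≤ 14 * l * s := by
  let u : Fin 4 → ℂ := ![1, -1, Complex.I, -Complex.I]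
  have hu : ∀ j, ‖u j‖ = 1 := fun j => by fin_cases j <;> simp [u]
  obtain ⟨S, h1, h2, h3⟩ := thin0 (ι := ι × Fin 4) val (fun i n => (u i.2 * g i.1 n).re)
    (fun i n => (Complex.abs_re_le_norm _).trans (by rw [norm_mul, hu, one_mul]; exact hg _ _))
    s hl hl' hp hs s le_rfl
  refine ⟨S, h1, h2, fun i => ?_⟩
  have h4 : ∀ j, (u j * (∑ n ∈ S, g i n - s * 𝔼 ω, g i (val ω))).re ≤ 7 * l * s := fun j => by
    have h5 := (single_le_sum (f := fun i : ι × Fin 4 => Real.exp (l * ∑ n ∈ S,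
      ((u i.2 * g i.1 n).re - 𝔼 ω, (u i.2 * g i.1 (val ω)).re))) (fun _ _ => by positivity)
      (mem_univ (i, j))).trans h3
    have h6 : (1 + 6 * l ^ 2) ^ s ≤ Real.exp (6 * l ^ 2 * s) := by
      rw [mul_comm _ (s : ℝ), Real.exp_nat_mul]
      gcongr
      linarith [Real.add_one_le_exp (6 * l ^ 2)]
    have h7 : (Fintype.card (ι × Fin 4) : ℝ) ≤ Real.exp (l ^ 2 * s) := by
      simpa [mul_comm] using hc
    have h8 := h5.trans (mul_le_mul h7 h6 (by positivity) (by positivity))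
    rw [← Real.exp_add, Real.exp_le_exp] at h8
    have h9 : (u j * (∑ n ∈ S, g i n - s * 𝔼 ω, g i (val ω))).re =
        ∑ n ∈ S, ((u j * g i n).re - 𝔼 ω, (u j * g i (val ω)).re) := by
      rw [sum_sub_distrib, ← Complex.re_sum, ← Complex.re_expect, ← mul_sum, ← mul_expect,
        sum_const, h1, nsmul_eq_mul, mul_sub, mul_left_comm, Complex.sub_re,
        ← Complex.ofReal_natCast, Complex.re_ofReal_mul]
    rw [h9]
    exact le_of_mul_le_mul_left (h8.trans_eq (by ring)) hl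
  have a0 := h4 0
  have a1 := h4 1
  have a2 := h4 2
  have a3 := h4 3
  simp only [u, Matrix.cons_val, one_mul, neg_mul, Complex.neg_re, Complex.I_mul_re] at a0 a1 a2 a3
  refine (Complex.norm_le_abs_re_add_abs_im _).trans ?_
  linarith [abs_le.2 ⟨neg_le.1 a1, a0⟩, abs_le.2 ⟨neg_le.1 a2, (neg_neg _).ge.trans a3⟩]

end Pool.Agent.P.MP_2957ea_an.Inc
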